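import Pool.Agent.ZAR.Stmts

namespace Pool.Agent.ZAR.H23

open MvPowerSeries

theorem subst_C'' {σ τ : Type} [Finite σ] {L : Type} [Field L] {θ : σ → MvPowerSeries τ L}
    (hs : HasSubst θ) (r : L) : subst θ (C r : MvPowerSeries σ L) = C r := by
  rw [← substAlgHom_apply (R := L) hs]
  exact (substAlgHom (R := L) hs).commutes r

theorem hasSubst_prm {L : Type} [Field L] (η : MvPowerSeries (Fin 2) L) : HasSubst (prm η) := by
  apply hasSubst_of_constantCoeff_zero
  intro i
  fin_cases i <;> simp [prm]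

theorem hasSubst_prm' {L : Type} [Field L] (η : MvPowerSeries (Fin 2) L)
    (d : Fin 3 → MvPowerSeries (Fin 2) L) : HasSubst (prm' η d) := by
  apply hasSubst_of_constantCoeff_zero
  intro i
  fin_cases i <;> simp [prm']

theorem subst_neg' {σ τ : Type} {L : Type} [Field L] {θ : σ → MvPowerSeries τ L}
    (hs : HasSubst θ) (f : MvPowerSeries σ L) : subst θ (-f) = - subst θ f := by
  rw [← substAlgHom_apply (R := L) hs, map_neg, substAlgHom_apply]

theorem subst_zero'' {σ τ : Type} {L : Type} [Field L] {θ : σ → MvPowerSeries τ L}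
    (hs : HasSubst θ) : subst θ (0 : MvPowerSeries σ L) = 0 := by
  rw [← substAlgHom_apply (R := L) hs, map_zero]

theorem gid : GIDStmt := by
  intro K L _ _ _ v η d j
  have h1 := hasSubst_prm η
  have h2 := hasSubst_prm' η d
  have e1 := fun i => subst_X (R := L) (S := L) h1 i
  have e2 := fun i => subst_X (R := L) (S := L) h2 i
  have c1 := fun r => subst_C'' h1 r
  have c2 := fun r => subst_C'' h2 r
  have p0 : prm η 0 = X 0 := rfl
  have p1 : prm η 1 = X 0 * η := rfl
  have p2 : prm η 2 = X 1 := rfl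
  have q0 : prm' η d 0 = X 0 - X 0 ^ 3 * d 0 := rfl
  have q1 : prm' η d 1 = X 0 * η - X 0 ^ 3 * d 1 := rfl
  have q2 : prm' η d 2 = X 1 - X 0 ^ 3 * d 2 := rfl
  fin_cases j <;> refine ⟨?_, ?_⟩ <;>
    simp [fA, fB, fC, gB, gC, subst_add h1, subst_add h2, subst_mul h1, subst_mul h2,
      subst_pow h1, subst_pow h2, subst_neg' h2, subst_zero'' h1,
      e1, e2, c1, c2, p0, p1, p2, q0, q1, q2] <;> ring

end Pool.Agent.ZAR.H23
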