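import Pool.Agent.ZAR.Stmts
import Pool.Agent.Helper23_ZAR.GID

namespace Pool.Agent.ZAR.H23

open MvPowerSeries

theorem constantCoeff_subst0 {σ τ : Type} [Finite σ] {L : Type} [Field L]
    {θ : σ → MvPowerSeries τ L} (hθ : ∀ i, constantCoeff (θ i) = 0) (f : MvPowerSeries σ L) :
    constantCoeff (subst θ f) = constantCoeff f := by
  have hs : HasSubst θ := hasSubst_of_constantCoeff_zero hθ
  have h1 : f = C (constantCoeff f) + (f - C (constantCoeff f)) := by ring
  rw [h1, subst_add hs, map_add, subst_C'' hs]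
  have h2 : constantCoeff (subst θ (f - C (constantCoeff f))) = 0 :=
    constantCoeff_subst_eq_zero hs hθ (by simp)
  rw [h2]
  simp

/-- Substitutions of congruent points are congruent. -/
theorem dvd_subst_sub (hHAD : HADStmt) {σ τ : Type} [Fintype σ] [Finite τ] {L : Type} [Field L]
    (a b : σ → MvPowerSeries τ L) (ha : ∀ i, constantCoeff (a i) = 0)
    (hb : ∀ i, constantCoeff (b i) = 0) (z : MvPowerSeries τ L) (h : ∀ i, z ∣ a i - b i)
    (f : MvPowerSeries σ L) : z ∣ subst a f - subst b f := by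
  obtain ⟨q, hq⟩ := hHAD L σ f
  rw [(hq τ a b ha hb).1]
  exact Finset.dvd_sum fun i _ => dvd_mul_of_dvd_left (h i) _

/-- The point `fA (prm η)` and so on have zero constant terms. -/
theorem cc_comp {K L : Type} [Field K] [Field L] [Algebra K L]
    (F : Fin 5 → MvPowerSeries (Fin 3) K) (hF : ∀ j, constantCoeff (F j) = 0)
    (p : Fin 3 → MvPowerSeries (Fin 2) L) (hp : ∀ i, constantCoeff (p i) = 0) (j : Fin 5) :
    constantCoeff (subst p (bc K L (Fin 3) (F j))) = 0 := by
  rw [constantCoeff_subst0 hp, bc, constantCoeff_map, hF, map_zero]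

theorem cc_prm {L : Type} [Field L] (η : MvPowerSeries (Fin 2) L) (i : Fin 3) :
    constantCoeff (prm η i) = 0 := by
  fin_cases i <;> simp [prm]

theorem cc_prm' {L : Type} [Field L] (η : MvPowerSeries (Fin 2) L)
    (d : Fin 3 → MvPowerSeries (Fin 2) L) (i : Fin 3) : constantCoeff (prm' η d i) = 0 := by
  fin_cases i <;> simp [prm']

theorem cc_fA {K : Type} [Field K] (v : Fin 6 → K) (j : Fin 5) :
    constantCoeff (fA v j) = 0 := by
  fin_cases j <;> simp [fA]

theorem cc_fB {K : Type} [Field K] (v : Fin 6 → K) (j : Fin 5) :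
    constantCoeff (fB v j) = 0 := by
  fin_cases j <;> simp [fB]

theorem cc_fC {K : Type} [Field K] (v : Fin 6 → K) (j : Fin 5) :
    constantCoeff (fC v j) = 0 := by
  fin_cases j <;> simp [fC]

/-- The points `fA (prm η)` and `fA (prm η')` differ by `X 0 * (η - η')`. -/
theorem dvd_fA_sub {K L : Type} [Field K] [Field L] [Algebra K L] (v : Fin 6 → K)
    (η η' z : MvPowerSeries (Fin 2) L) (h : z ∣ X 0 * (η - η')) (j : Fin 5) :
    z ∣ subst (prm η) (bc K L (Fin 3) (fA v j)) - subst (prm η') (bc K L (Fin 3) (fA v j)) := by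
  have h1 := hasSubst_prm η
  have h2 := hasSubst_prm η'
  have e1 := fun i => subst_X (R := L) (S := L) h1 i
  have e2 := fun i => subst_X (R := L) (S := L) h2 i
  have c1 := fun r => subst_C'' h1 r
  have c2 := fun r => subst_C'' h2 r
  have p0 : prm η 0 = X 0 := rfl
  have p1 : prm η 1 = X 0 * η := rfl
  have p2 : prm η 2 = X 1 := rfl
  have q0 : prm η' 0 = X 0 := rfl
  have q1 : prm η' 1 = X 0 * η' := rfl
  have q2 : prm η' 2 = X 1 := rfl
  have key : ∀ j : Fin 5, subst (prm η) (bc K L (Fin 3) (fA v j)) -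
      subst (prm η') (bc K L (Fin 3) (fA v j)) = X 0 * (η - η') ∨
      subst (prm η) (bc K L (Fin 3) (fA v j)) -
      subst (prm η') (bc K L (Fin 3) (fA v j)) = 0 := by
    intro j
    fin_cases j
    · right
      simp [fA, subst_zero'' h1, subst_zero'' h2]
    · right
      simp [fA, subst_add h1, subst_add h2, subst_mul h1, subst_mul h2,
      subst_pow h1, subst_pow h2, e1, e2, c1, c2, p0, p2, q0, q2]
    · right
      simp [fA, subst_mul h1, subst_mul h2, e1, e2, c1, c2, p0, q0]
    · left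
      simp [fA, subst_add h1, subst_add h2, subst_mul h1, subst_mul h2,
        e1, e2, c1, c2, p0, p1, q0, q1]
      ring
    · right
      simp [fA, subst_add h1, subst_add h2, subst_mul h1, subst_mul h2,
        e1, e2, c1, c2, p0, p2, q0, q2]
  rcases key j with hj | hj
  · rw [hj]; exact h
  · rw [hj]; exact dvd_zero _

/-- Cancel an invertible matrix in a congruence. -/
theorem dvd_of_mulVec {R : Type} [CommRing R] {n : ℕ} (Q : Matrix (Fin n) (Fin n) R)
    (hQ : IsUnit Q.det) (D : Fin n → R) (z : R) (h : ∀ i, z ∣ Q.mulVec D i) (j : Fin n) :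
    z ∣ D j := by
  have h1 : Q⁻¹.mulVec (Q.mulVec D) = D := by
    rw [Matrix.mulVec_mulVec, Matrix.nonsing_inv_mul _ hQ, Matrix.one_mulVec]
  rw [← congrFun h1 j, Matrix.mulVec, dotProduct]
  exact Finset.dvd_sum fun i _ => dvd_mul_of_dvd_right (h i) _

theorem X0_ne {L : Type} [Field L] : (X 0 : MvPowerSeries (Fin 2) L) ≠ 0 := by
  intro h
  have h1 := congrArg (fun f => constantCoeff (pderiv L 0 f)) h
  simp at h1

theorem crs (hHAD : HADStmt) : CRSStmt := by
  intro K L _ _ _ u v φ η η' d d' ρ ρ' k hk hφ hS hS' hdvd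
  classical
  set a : Fin 5 → MvPowerSeries (Fin 2) L :=
    fun j => subst (prm η) (bc K L (Fin 3) (fA v j)) with ha
  set b : Fin 5 → MvPowerSeries (Fin 2) L :=
    fun j => subst (prm' η d) (bc K L (Fin 3) (fB v j)) with hb
  set a' : Fin 5 → MvPowerSeries (Fin 2) L :=
    fun j => subst (prm η') (bc K L (Fin 3) (fA v j)) with ha'
  set b' : Fin 5 → MvPowerSeries (Fin 2) L :=
    fun j => subst (prm' η' d') (bc K L (Fin 3) (fC v j)) with hb'
  have ca : ∀ j, constantCoeff (a j) = 0 := fun j => cc_comp _ (cc_fA v) _ (cc_prm η) j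
  have cb : ∀ j, constantCoeff (b j) = 0 := fun j => cc_comp _ (cc_fB v) _ (cc_prm' η d) j
  have ca' : ∀ j, constantCoeff (a' j) = 0 := fun j => cc_comp _ (cc_fA v) _ (cc_prm η') j
  have cb' : ∀ j, constantCoeff (b' j) = 0 := fun j => cc_comp _ (cc_fC v) _ (cc_prm' η' d') j
  have hab : ∀ j, a j - b j = X 0 ^ 3 * gB (fun i => algebraMap K L (v i)) η d j := fun j =>
    (gid K L v η d j).1
  have hab' : ∀ j, a' j - b' j = X 0 ^ 3 * gC (fun i => algebraMap K L (v i)) η' d' j := fun j =>
    (gid K L v η' d' j).2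
  choose q hq using fun i : Fin 5 => hHAD L (Fin 5) (bc K L (Fin 5) (φ i))
  set Q : Matrix (Fin 5) (Fin 5) (MvPowerSeries (Fin 2) L) :=
    Matrix.of fun i m => subst (Sum.elim a b) (q i m) with hQ
  set Q' : Matrix (Fin 5) (Fin 5) (MvPowerSeries (Fin 2) L) :=
    Matrix.of fun i m => subst (Sum.elim a' b') (q i m) with hQ'
  set GB := gB (fun i => algebraMap K L (v i)) η d with hGB
  set GC := gC (fun i => algebraMap K L (v i)) η' d' with hGC
  have hX3 : (X 0 ^ 3 : MvPowerSeries (Fin 2) L) ≠ 0 := pow_ne_zero 3 X0_ne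
  have e1 : ∀ i, ∑ m, Q i m * GB m = C (kv u i) * ρ := by
    intro i
    apply mul_left_cancel₀ hX3
    have h1 := (hq i (Fin 2) a b ca cb).1
    rw [hS i] at h1
    have h2 : X 0 ^ 3 * (C (kv u i) * ρ) = C (kv u i) * X 0 ^ 3 * ρ := by ring
    rw [h2, h1, Finset.mul_sum]
    apply Finset.sum_congr rfl
    intro m _
    rw [hab m, hQ, Matrix.of_apply]
    ring
  have e2 : ∀ i, ∑ m, Q' i m * GC m = C (kv u i) * ρ' := by
    intro i
    apply mul_left_cancel₀ hX3
    have h1 := (hq i (Fin 2) a' b' ca' cb').1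
    rw [hS' i] at h1
    have h2 : X 0 ^ 3 * (C (kv u i) * ρ') = C (kv u i) * X 0 ^ 3 * ρ' := by ring
    rw [h2, h1, Finset.mul_sum]
    apply Finset.sum_congr rfl
    intro m _
    rw [hab' m, hQ', Matrix.of_apply]
    ring
  have hk3 : (X 0 : MvPowerSeries (Fin 2) L) ^ k ∣ X 0 ^ 3 := pow_dvd_pow _ (by omega)
  have hQQ : ∀ i m, (X 0 : MvPowerSeries (Fin 2) L) ^ k ∣ Q i m - Q' i m := by
    intro i m
    apply dvd_subst_sub hHAD
    · rintro (j | j)
      · exact ca j
      · exact cb j
    · rintro (j | j)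
      · exact ca' j
      · exact cb' j
    · have h0 : ∀ j, (X 0 : MvPowerSeries (Fin 2) L) ^ k ∣ a j - a' j := fun j =>
        dvd_fA_sub v η η' _ hdvd j
      rintro (j | j)
      · exact h0 j
      · have h1 : b j - b' j = -(a j - b j) + (a j - a' j) + (a' j - b' j) := by ring
        simp only [Sum.elim_inr]
        rw [h1, hab j, hab' j]
        exact dvd_add (dvd_add (dvd_neg.mpr (dvd_mul_of_dvd_left hk3 _)) (h0 j))
          (dvd_mul_of_dvd_left hk3 _)
  have hdet : IsUnit Q.det := by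
    rw [isUnit_iff_constantCoeff]
    have h1 : constantCoeff Q.det = (Q.map (constantCoeff (σ := Fin 2) (R := L))).det := by
      rw [RingHom.map_det]; rfl
    have h2 : Q.map (constantCoeff (σ := Fin 2) (R := L)) = (jac0 φ).map (algebraMap K L) := by
      ext i m
      rw [Matrix.map_apply, Matrix.map_apply, hQ, Matrix.of_apply, constantCoeff_subst0 (by
        rintro (j | j)
        · exact ca j
        · exact cb j)]
      have h3 := (hq i (Fin 5) X X (by simp) (by simp)).2 m
      have h4 := congrArg (constantCoeff (σ := Fin 5) (R := L)) h3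
      rw [constantCoeff_subst0 (by rintro (j | j) <;> simp),
        constantCoeff_subst0 (by simp)] at h4
      rw [h4, jac0, Matrix.of_apply]
      rw [← coeff_zero_eq_constantCoeff_apply, ← coeff_zero_eq_constantCoeff_apply,
        coeff_pderiv, coeff_pderiv, bc, coeff_map]
      simp
    rw [h1, h2]
    have h3 : ((jac0 φ).map (algebraMap K L)).det = algebraMap K L (jac0 φ).det := by
      rw [RingHom.map_det]; rfl
    rw [h3, isUnit_iff_ne_zero]
    intro h
    exact hφ.2 ((algebraMap K L).injective (by rw [h, map_zero]))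
  have hfin : ∀ j, (X 0 : MvPowerSeries (Fin 2) L) ^ k ∣ ρ' * GB j - ρ * GC j := by
    intro j
    apply dvd_of_mulVec Q hdet (fun j => ρ' * GB j - ρ * GC j)
    intro i
    have h1 : Q.mulVec (fun j => ρ' * GB j - ρ * GC j) i =
        -∑ m, (Q i m - Q' i m) * (ρ * GC m) := by
      have h2 : Q.mulVec (fun j => ρ' * GB j - ρ * GC j) i =
          ρ' * (∑ m, Q i m * GB m) - ρ * (∑ m, Q' i m * GC m) -
          ∑ m, (Q i m - Q' i m) * (ρ * GC m) := by
        rw [Matrix.mulVec, dotProduct, Finset.mul_sum, Finset.mul_sum, ← Finset.sum_sub_distrib,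
          ← Finset.sum_sub_distrib]
        apply Finset.sum_congr rfl
        intro m _
        ring
      rw [h2, e1, e2]
      ring
    rw [h1]
    exact dvd_neg.mpr (Finset.dvd_sum fun m _ => dvd_mul_of_dvd_left (hQQ i m) _)
  exact hfin

end Pool.Agent.ZAR.H23
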