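import Pool.Agent.ZAR.Stmts

namespace Pool.Agent.ZAR.H23

open MvPowerSeries

instance charZero_KU (n : ℕ) (K : Type) [Field K] [CharZero K] : CharZero (KU n K) :=
  charZero_of_injective_algebraMap (algebraMap K (KU n K)).injective

theorem span_X (hHAD : HADStmt) (n : ℕ) (K : Type) [Field K] :
    Ideal.span (Set.range (X : Fin n → MvPowerSeries (Fin n) K)) = mI n K := by
  apply le_antisymm
  · rw [Ideal.span_le]
    rintro _ ⟨i, rfl⟩
    show constantCoeff (X i) = 0
    simp
  · intro f hf
    have hf0 : constantCoeff f = 0 := hf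
    obtain ⟨q, hq⟩ := hHAD K (Fin n) f
    have h1 := (hq (Fin n) X (fun _ => 0) (by simp) (by simp)).1
    rw [show subst (X : Fin n → MvPowerSeries (Fin n) K) f = f from congrFun subst_self f] at h1
    have h2 : subst (fun _ => 0 : Fin n → MvPowerSeries (Fin n) K) f = 0 :=
      subst_zero_of_constantCoeff_zero hf0
    rw [h2, sub_zero] at h1
    rw [h1]
    apply Ideal.sum_mem
    intro i _
    apply Ideal.mul_mem_right
    rw [sub_zero]
    exact Ideal.subset_span ⟨i, rfl⟩

theorem gen_ne_zero {K L : Type} [Field K] [Field L] [Algebra K L] {n : ℕ} [NeZero n]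
    {u : Fin n → Fin (n + 1) → L} (hu : Gen K u) {e : Fin (n + 1) → K} (he : e ≠ 0) :
    (fun i => ∑ j, u i j * algebraMap K L (e j)) ≠ 0 := by
  classical
  intro h
  obtain ⟨j0, hj0⟩ := Function.ne_iff.mp he
  have h1 := congrFun h 0
  simp only [Pi.zero_apply] at h1 hj0
  set F : MvPolynomial (Fin n × Fin (n + 1)) K :=
    ∑ j, MvPolynomial.C (e j) * MvPolynomial.X (0, j) with hF
  have h2 : MvPolynomial.aeval (fun p : Fin n × Fin (n + 1) => u p.1 p.2) F = 0 := by
    rw [hF, map_sum, ← h1]
    apply Finset.sum_congr rfl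
    intro j _
    simp [mul_comm]
  have h3 : F = 0 := hu.eq_zero_of_aeval_eq_zero F h2
  have h4 : F.coeff (Finsupp.single (0, j0) 1) = e j0 := by
    rw [hF, MvPolynomial.coeff_sum, Finset.sum_eq_single j0]
    · rw [MvPolynomial.coeff_C_mul]; simp
    · intro j _ hj
      rw [MvPolynomial.coeff_C_mul, MvPolynomial.coeff_X, if_neg, mul_zero]
      intro h5
      have h6 := Finsupp.single_left_injective (one_ne_zero) h5
      exact hj (Prod.mk.inj h6).2
    · intro h; exact absurd (Finset.mem_univ _) h
  rw [h3, MvPolynomial.coeff_zero] at h4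
  exact hj0 h4.symm

theorem cyl (hHAD : HADStmt) (hSTC : STCStmt) (hDIC : DICStmt) (hBAS : BASStmt)
    (hNZC : NZCStmt) (hIMP : IMPStmt) (hGUU : GUUStmt) : CYLStmt := by
  intro B hB s
  induction s with
  | zero =>
    intro K _ _ e I he hst hrad hne
    exact hBAS K e I he hst hrad hne
  | succ s ih =>
    intro K _ _ e I he hst hrad hne
    have hPL : PL e ≤ mI (s + 1 + 2) K := by
      rw [PL, Ideal.span_le]
      rintro _ ⟨i, j, rfl⟩
      show constantCoeff (C (e i) * X j - C (e j) * X i) = 0
      simp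
    rcases hDIC K (s + 1 + 2) e I he hst with h | h
    · right
      refine ⟨h, X, hB _ K, ?_, ?_⟩
      · rw [IsBasis, span_X hHAD]
        apply sup_eq_left.mpr
        refine le_trans ?_ (le_trans h hPL)
        intro f hf
        exact Ideal.subset_span (Or.inl hf)
      · have hu := hGUU (s + 2) K
        have hne' : (fun i => ∑ j, uu (s + 2) K i j * algebraMap K (KU (s + 2) K) (e j)) ≠ 0 :=
          gen_ne_zero hu he
        rw [hIMP K (KU (s + 2) K) (s + 2) (uu (s + 2) K) e he hne']
        refine ih (KU (s + 2) K) _ _ hne' (hSTC K _ _ _ e I hst) ?_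
          (hNZC K _ _ _ I hu hne)
        exact Ideal.radical_isRadical _
    · left
      refine ⟨?_, h⟩
      rw [h]
      intro h1
      have h2 : (1 : MvPowerSeries (Fin (s + 1 + 2)) K) ∈ mI (s + 1 + 2) K :=
        hPL (h1 Submodule.mem_top)
      have h3 : constantCoeff (1 : MvPowerSeries (Fin (s + 1 + 2)) K) = 0 := h2
      simp at h3

end Pool.Agent.ZAR.H23
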