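import Pool.Agent.ZAR.Stmts

namespace Pool.Agent.ZAR.H23

open MvPowerSeries

/-- The elimination in an arbitrary commutative ring: `z ∣ x ^ 2`. -/
theorem con_aux {R : Type} [CommRing R] (x t a b g η η' d0 d1 d2 e0 e1 e2 ρ ρ' z : R)
    (hz : z ∣ x ^ 2) (hc : IsUnit (a + b * t * x)) (hb : IsUnit b) (hρ : IsUnit ρ')
    (h0 : z ∣ ρ' * (-((1 - x ^ 2 * d0) * (a + b * (t - x ^ 3 * d2) * x * (1 - x ^ 2 * d0))) ^ 3) -
      ρ * ((1 - x ^ 2 * e0) ^ 3 * g * (a + b * x * (1 - x ^ 2 * e0) *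
        (t - x ^ 3 * e2 + x * (η' - x ^ 2 * e1))) ^ 2))
    (h1 : z ∣ ρ' * (a * d0 + b * (2 * x * t * d0 - x ^ 3 * t * d0 ^ 2 +
      x ^ 2 * d2 * (1 - x ^ 2 * d0) ^ 2)) -
      ρ * (a * e0 + b * (2 * x * t * e0 - x ^ 3 * t * e0 ^ 2 +
      x ^ 2 * e2 * (1 - x ^ 2 * e0) ^ 2) - b * (1 - x ^ 2 * e0) ^ 2 * (η' - x ^ 2 * e1)))
    (h2 : z ∣ ρ' * (g * d0 - b * (1 - x ^ 2 * d0) ^ 2 * (η - x ^ 2 * d1)) - ρ * (g * e0)) :
    z ∣ (a + 2 * b * t * x) * η - (a + b * t * x) * η' := by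
  obtain ⟨w, hw⟩ := hz
  -- zeroth relation
  have k0 : z ∣ (a + b * t * x) ^ 2 * (ρ' * (a + b * t * x) + ρ * g) := by
    set c := a + b * t * x with hcdef
    set κ := 1 - x ^ 2 * d0 with hκ
    set P := κ * (a + b * (t - x ^ 3 * d2) * x * κ) with hP
    set ε := -d0 * a + b * x * (-2 * t * d0 + x ^ 2 * t * d0 ^ 2 - x * d2 * κ ^ 2) with hε
    have hPc : P - c = x ^ 2 * ε := by
      rw [hP, hcdef, hε, hκ]
      ring
    set κ' := 1 - x ^ 2 * e0 with hκ'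
    set P' := a + b * x * κ' * (t - x ^ 3 * e2 + x * (η' - x ^ 2 * e1)) with hP'
    set ε' := b * ((η' - x ^ 2 * e1 - x ^ 2 * e2) * κ' - x * e0 * t) with hε'
    have hPc' : P' - c = x ^ 2 * ε' := by
      rw [hP', hcdef, hε', hκ']
      ring
    have hκ3 : κ' ^ 3 - 1 = x ^ 2 * (-e0 * (1 + κ' + κ' ^ 2)) := by
      rw [hκ']
      ring
    have key : c ^ 2 * (ρ' * c + ρ * g) = -(ρ' * (-P ^ 3) - ρ * (κ' ^ 3 * g * P' ^ 2)) +
        x ^ 2 * (-(ρ' * (ε * (P ^ 2 + P * c + c ^ 2))) -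
          ρ * g * (κ' ^ 3 * ε' * (P' + c) + (-e0 * (1 + κ' + κ' ^ 2)) * c ^ 2)) := by
      have e1 : x ^ 2 * (-(ρ' * (ε * (P ^ 2 + P * c + c ^ 2))) -
          ρ * g * (κ' ^ 3 * ε' * (P' + c) + (-e0 * (1 + κ' + κ' ^ 2)) * c ^ 2)) =
          -(ρ' * ((x ^ 2 * ε) * (P ^ 2 + P * c + c ^ 2))) -
          ρ * g * (κ' ^ 3 * (x ^ 2 * ε') * (P' + c) +
            (x ^ 2 * (-e0 * (1 + κ' + κ' ^ 2))) * c ^ 2) := by ring
      rw [e1, ← hPc, ← hPc', ← hκ3]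
      ring
    rw [key]
    refine dvd_add (dvd_neg.mpr h0) ?_
    rw [hw, mul_assoc]
    exact dvd_mul_right _ _
  have k0' : z ∣ ρ' * (a + b * t * x) + ρ * g := by
    have hu : IsUnit ((a + b * t * x) ^ 2) := hc.pow 2
    exact (IsUnit.dvd_mul_left hu).mp k0
  -- first and second relation
  have k1 : z ∣ ρ' * ((a + 2 * b * t * x) * d0) - ρ * ((a + 2 * b * t * x) * e0 - b * η') := by
    have e1 : ρ' * ((a + 2 * b * t * x) * d0) - ρ * ((a + 2 * b * t * x) * e0 - b * η') =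
        (ρ' * (a * d0 + b * (2 * x * t * d0 - x ^ 3 * t * d0 ^ 2 +
          x ^ 2 * d2 * (1 - x ^ 2 * d0) ^ 2)) -
          ρ * (a * e0 + b * (2 * x * t * e0 - x ^ 3 * t * e0 ^ 2 +
          x ^ 2 * e2 * (1 - x ^ 2 * e0) ^ 2) - b * (1 - x ^ 2 * e0) ^ 2 * (η' - x ^ 2 * e1))) +
        x ^ 2 * (-ρ' * b * (-x * t * d0 ^ 2 + d2 * (1 - x ^ 2 * d0) ^ 2) +
          ρ * b * (-x * t * e0 ^ 2 + e2 * (1 - x ^ 2 * e0) ^ 2) -
          ρ * b * ((-2 * e0 + x ^ 2 * e0 ^ 2) * (η' - x ^ 2 * e1) - e1)) := by ring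
    rw [e1]
    refine dvd_add h1 ?_
    rw [hw, mul_assoc]
    exact dvd_mul_right _ _
  have k2 : z ∣ ρ' * (g * d0 - b * η) - ρ * (g * e0) := by
    have e1 : ρ' * (g * d0 - b * η) - ρ * (g * e0) =
        (ρ' * (g * d0 - b * (1 - x ^ 2 * d0) ^ 2 * (η - x ^ 2 * d1)) - ρ * (g * e0)) +
        x ^ 2 * (ρ' * b * ((-2 * d0 + x ^ 2 * d0 ^ 2) * (η - x ^ 2 * d1) - d1)) := by ring
    rw [e1]
    refine dvd_add h2 ?_
    rw [hw, mul_assoc]
    exact dvd_mul_right _ _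
  have k3 : z ∣ (b * ρ') * ((a + 2 * b * t * x) * η - (a + b * t * x) * η') := by
    have e1 : (b * ρ') * ((a + 2 * b * t * x) * η - (a + b * t * x) * η') =
        g * (ρ' * ((a + 2 * b * t * x) * d0) - ρ * ((a + 2 * b * t * x) * e0 - b * η')) -
        (a + 2 * b * t * x) * (ρ' * (g * d0 - b * η) - ρ * (g * e0)) -
        b * η' * (ρ' * (a + b * t * x) + ρ * g) := by ring
    rw [e1]
    exact dvd_sub (dvd_sub (dvd_mul_of_dvd_right k1 _) (dvd_mul_of_dvd_right k2 _))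
      (dvd_mul_of_dvd_right k0' _)
  exact (IsUnit.dvd_mul_left (hb.mul hρ)).mp k3

theorem con (hCRS : CRSStmt) : CONStmt := by
  intro K L _ _ _ _ u v φ η η' d d' ρ ρ' h1 h2 h3 hφ hS hS' hρ hρ'
  have hinj : ∀ x : K, x ≠ 0 → algebraMap K L x ≠ 0 := fun x hx h =>
    hx ((algebraMap K L).injective (by rw [h, map_zero]))
  have hstep : ∀ k : ℕ, k ≤ 2 → (X 0 : MvPowerSeries (Fin 2) L) ^ k ∣ X 0 * (η - η') →
      (X 0 : MvPowerSeries (Fin 2) L) ^ k ∣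
      (C (algebraMap K L (v 2)) + 2 * C (algebraMap K L (v 1 ^ 2)) * X 1 * X 0) * η -
      (C (algebraMap K L (v 2)) + C (algebraMap K L (v 1 ^ 2)) * X 1 * X 0) * η' := by
    intro k hk hd
    have hc := hCRS K L u v φ η η' d d' ρ ρ' k hk hφ hS hS' hd
    rw [map_pow]
    refine con_aux (X 0) (X 1) (C (algebraMap K L (v 2))) (C (algebraMap K L (v 1) ^ 2))
      (C (algebraMap K L (v 3))) η η' (d 0) (d 1) (d 2) (d' 0) (d' 1) (d' 2) ρ ρ' _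
      (pow_dvd_pow _ hk) ?_ ?_ ?_ (hc 0) (hc 1) (hc 2)
    · rw [isUnit_iff_constantCoeff]
      simp [hinj _ h2]
    · rw [isUnit_iff_constantCoeff]
      simp [hinj _ h1]
    · rw [isUnit_iff_constantCoeff, isUnit_iff_ne_zero]
      exact hρ'
  have hk1 := hstep 1 (by norm_num) (by rw [pow_one]; exact dvd_mul_right _ _)
  have hk1' : (X 0 : MvPowerSeries (Fin 2) L) ∣ η - η' := by
    have hu : IsUnit (C (algebraMap K L (v 2)) : MvPowerSeries (Fin 2) L) := by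
      rw [isUnit_iff_constantCoeff]
      simp [hinj _ h2]
    apply (IsUnit.dvd_mul_left hu).mp
    have e1 : C (algebraMap K L (v 2)) * (η - η') =
        ((C (algebraMap K L (v 2)) + 2 * C (algebraMap K L (v 1 ^ 2)) * X 1 * X 0) * η -
        (C (algebraMap K L (v 2)) + C (algebraMap K L (v 1 ^ 2)) * X 1 * X 0) * η') -
        X 0 * (2 * C (algebraMap K L (v 1 ^ 2)) * X 1 * η -
          C (algebraMap K L (v 1 ^ 2)) * X 1 * η') := by ring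
    rw [e1]
    rw [pow_one] at hk1
    exact dvd_sub hk1 (dvd_mul_right _ _)
  apply hstep 2 le_rfl
  rw [pow_two]
  exact mul_dvd_mul_left _ hk1'

end Pool.Agent.ZAR.H23
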