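import Pool.Agent.ZAR.Stmts

namespace Pool.Agent.ZAR.H23

open MvPowerSeries

theorem ne_zero_of_lin {K : Type} [Field K] {n : ℕ} {p : MvPowerSeries (Fin n) K} (i : Fin n)
    (h : constantCoeff (pderiv K i p) ≠ 0) : p ≠ 0 := by
  rintro rfl
  apply h
  simp

theorem fV_ne_zero (K : Type) [Field K] : fV K ≠ 0 := by
  have hX : ∀ i : Fin 6, (X i : MvPowerSeries (Fin 6) K) ≠ 0 := fun i =>
    ne_zero_of_lin i (by simp)
  unfold fV
  refine mul_ne_zero (mul_ne_zero (mul_ne_zero (mul_ne_zero (mul_ne_zero (mul_ne_zero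
    (hX 0) ?_) ?_) (hX 1)) (hX 2)) (hX 3)) ?_
  · exact ne_zero_of_lin 0 (by simp [pderiv_X, pderiv_pow])
  · exact ne_zero_of_lin 0 (by simp [pderiv_X, pderiv_pow, Derivation.leibniz])
  · exact ne_zero_of_lin 2 (by simp [pderiv_X, pderiv_pow, Derivation.leibniz])

theorem fin' (hCYL : CYLStmt) (hEQB : EQBStmt) (hNEG : NEGStmt) (hRAD : RADStmt) (hPLX : PLXStmt)
    (hBBV : BBVStmt) (hSTV : STVStmt) : FINStmt := by
  intro B hB k _ _
  have hP := hPLX k
  refine ⟨hRAD k, hP.2, ?_, hBBV k, ?_, ?_⟩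
  · rw [Ideal.span_singleton_le_iff_mem]
    have h0 : (X 0 : MvPowerSeries (Fin 6) k) ∈ Ideal.span {X 0, X 1, X 2, X 3, X 4} :=
      Ideal.subset_span (by simp)
    have h1 : fV k = X 0 * ((X 0 - X 2 ^ 3) * (X 0 + X 2 ^ 2 * X 3) * X 1 * X 2 * X 3 *
      (X 2 + X 3 - X 1 ^ 2 * X 4)) := by
      unfold fV
      ring
    rw [h1]
    exact Ideal.mul_mem_right _ _ h0
  · rw [← hP.1]
    refine hCYL B hB 4 k (Pi.single 5 1) (Ideal.span {fV k}) ?_ (hSTV k) (hRAD k) ?_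
    · intro h
      have := congrFun h 5
      simp at this
    · rw [Ne, Ideal.span_singleton_eq_bot]
      exact fV_ne_zero k
  · intro h
    exact hNEG k _ (hEQB B 3 5 _ _ _ h)

end Pool.Agent.ZAR.H23
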