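import Pool.Agent.ZAR.Stmts

namespace Pool.Agent.ZAR.H23

open MvPowerSeries

theorem gps : GPSStmt := by
  intro K L _ _ _ n q u hu Q hQ h0
  classical
  obtain ⟨m0, hm0⟩ := MvPolynomial.ne_zero_iff.mp hQ
  obtain ⟨d, hd⟩ : ∃ d, MvPowerSeries.coeff d (Q.coeff m0) ≠ 0 := by
    by_contra hcon
    push Not at hcon
    exact hm0 (MvPowerSeries.ext fun d => by rw [hcon d, map_zero])
  set F : MvPolynomial (Fin n × Fin (n + 1)) K :=
    ∑ m ∈ Q.support, MvPolynomial.monomial m (MvPowerSeries.coeff d (Q.coeff m)) with hF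
  have hFne : F ≠ 0 := by
    rw [MvPolynomial.ne_zero_iff]
    refine ⟨m0, ?_⟩
    rw [hF, MvPolynomial.coeff_sum]
    simp only [MvPolynomial.coeff_monomial]
    rw [Finset.sum_eq_single m0]
    · simpa using hd
    · intro b _ hb
      rw [if_neg hb]
    · intro h
      exact absurd (MvPolynomial.mem_support_iff.mpr hm0) h
  have hval : MvPolynomial.aeval (fun p : Fin n × Fin (n + 1) => u p.1 p.2) F = 0 := by
    have h1 := congrArg (MvPowerSeries.coeff d) h0
    rw [map_zero, MvPolynomial.eval₂_eq, map_sum] at h1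
    rw [hF, map_sum, ← h1]
    apply Finset.sum_congr rfl
    intro m _
    rw [MvPolynomial.aeval_monomial]
    have h2 : (∏ i ∈ m.support, (C (u i.1 i.2) : MvPowerSeries (Fin q) L) ^ m i) =
        C (∏ i ∈ m.support, u i.1 i.2 ^ m i) := by
      rw [map_prod]
      simp only [map_pow]
    rw [h2, mul_comm (bc K L (Fin q) _), MvPowerSeries.coeff_C_mul, mul_comm]
    rfl
  exact hFne ((algebraicIndependent_iff_injective_aeval.mp hu) (by rw [hval, map_zero]))

end Pool.Agent.ZAR.H23
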