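import Pool.Agent.ZAR.Stmts

namespace Pool.Agent.ZAR.H23

/-- For a prime `q` minimal over a radical ideal `I` and `h ∈ q` there is `s ∉ q` with
`s * h ∈ I`. -/
theorem exists_notMem_mul_mem {R : Type} [CommRing R] {I q : Ideal R} (hI : I.IsRadical)
    (hq : q ∈ I.minimalPrimes) {h : R} (hh : h ∈ q) : ∃ s, s ∉ q ∧ s * h ∈ I := by
  classical
  by_contra hcon
  push Not at hcon
  haveI : q.IsPrime := hq.1.1
  have hdisj : Disjoint (I : Set R) ((Submonoid.powers h ⊔ q.primeCompl : Submonoid R) : Set R) := by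
    rw [Set.disjoint_right]
    intro x hx hxI
    rw [SetLike.mem_coe, Submonoid.mem_sup] at hx
    obtain ⟨y, ⟨n, rfl⟩, s, hs, rfl⟩ := hx
    have hs' : s ∉ q := hs
    rcases Nat.eq_zero_or_pos n with hn | hn
    · subst hn
      have : s ∈ I := by simpa using hxI
      exact hs' (hq.1.2 this)
    · apply hcon s hs'
      apply hI
      refine ⟨n, ?_⟩
      have : (s * h) ^ n = s ^ (n - 1) * (h ^ n * s) := by
        obtain ⟨m, rfl⟩ : ∃ m, n = m + 1 := ⟨n - 1, by omega⟩
        simp only [Nat.add_sub_cancel]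
        ring
      rw [this]
      exact I.mul_mem_left _ hxI
  obtain ⟨p, hp, hIp, hpd⟩ := Ideal.exists_le_prime_disjoint _ _ hdisj
  have hpq : p ≤ q := by
    intro x hx
    by_contra hxq
    exact Set.disjoint_left.mp hpd hx
      (SetLike.le_def.mp (le_sup_right : q.primeCompl ≤ _) hxq)
  have hqp : q ≤ p := hq.2 ⟨hp, hIp⟩ hpq
  exact Set.disjoint_left.mp hpd (hqp hh)
    (SetLike.le_def.mp (le_sup_left : Submonoid.powers h ≤ _) (Submonoid.mem_powers h))

theorem nza : NZAStmt := by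
  intro A R _ _ _ θ D I g d hI hg hd hint
  classical
  by_contra hcon
  push Not at hcon
  set J : Ideal R := Ideal.span ((I : Set R) ∪ D '' (I : Set R)) with hJ
  have hdisj : Disjoint (J : Set R) (((nonZeroDivisors A).map θ : Submonoid R) : Set R) := by
    rw [Set.disjoint_right]
    rintro x ⟨a, ha, rfl⟩ hx
    exact hcon a (nonZeroDivisors.ne_zero ha) hx
  obtain ⟨q, hq, hJq, hqd⟩ := Ideal.exists_le_prime_disjoint _ _ hdisj
  have hIq : I ≤ q := le_trans (fun x hx => Ideal.subset_span (Or.inl hx)) hJq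
  have hDq : ∀ x ∈ I, D x ∈ q := fun x hx => hJq (Ideal.subset_span (Or.inr ⟨x, hx, rfl⟩))
  have hcomap : ∀ a : A, θ a ∈ q → a = 0 := by
    intro a ha
    by_contra hne
    exact Set.disjoint_left.mp hqd ha ⟨a, mem_nonZeroDivisors_of_ne_zero hne, rfl⟩
  obtain ⟨p, hp, hpq⟩ := Ideal.exists_minimalPrimes_le hIq
  haveI : p.IsPrime := hp.1.1
  have hqp : q ≤ p := by
    intro r hr
    by_contra hrp
    obtain ⟨P, hP, hPI⟩ := hint r
    have hne : P.map (Ideal.Quotient.mk (p.comap θ)) ≠ 0 := by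
      haveI : Nontrivial (A ⧸ p.comap θ) := by
        apply Ideal.Quotient.nontrivial_iff.mpr
        exact Ideal.comap_ne_top θ (Ideal.IsPrime.ne_top ‹p.IsPrime›)
      exact (hP.map _).ne_zero
    obtain ⟨i, hi1, hi2⟩ := Ideal.exists_coeff_mem_comap_sdiff_comap_of_root_mem_sdiff hpq
      (r := r) ⟨hr, hrp⟩ hne (hp.1.2 hPI)
    have : P.coeff i = 0 := hcomap _ hi1
    apply hi2
    rw [this]
    exact zero_mem _
  have hpeq : p = q := le_antisymm hpq hqp
  subst hpeq
  have hstab : ∀ h ∈ p, D h ∈ p := by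
    intro h hh
    obtain ⟨s, hs, hsh⟩ := exists_notMem_mul_mem hI hp hh
    have h1 : D (s * h) ∈ p := hDq _ hsh
    rw [Derivation.leibniz, smul_eq_mul, smul_eq_mul] at h1
    have h2 : s * D h ∈ p := by
      have := p.sub_mem h1 (p.mul_mem_right (D s) hh)
      simpa using this
    exact (hq.mem_or_mem h2).resolve_left hs
  have hiter : ∀ n : ℕ, D^[n] g ∈ p := by
    intro n
    induction n with
    | zero => exact hIq hg
    | succ n ih => rw [Function.iterate_succ_apply']; exact hstab _ ih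
  exact hq.ne_top (Ideal.eq_top_of_isUnit_mem _ (hiter d) hd)

end Pool.Agent.ZAR.H23
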