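import Pool.Agent.ZAR.Stmts

namespace Pool.Agent.ZAR.H23

open MvPowerSeries

/-- The graph hypersurface `X a = g` is prime. -/
theorem prime_graph (hHAD : HADStmt) {K : Type} [Field K] {n : ℕ} (a : Fin n)
    (g : MvPowerSeries (Fin n) K) (hg0 : constantCoeff g = 0)
    (hg : subst (Function.update X a g : Fin n → MvPowerSeries (Fin n) K) g = g)
    (hne : constantCoeff (pderiv K a g) ≠ 1) : Prime (X a - g) := by
  classical
  set θ : Fin n → MvPowerSeries (Fin n) K := Function.update X a g with hθ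
  have hθ0 : ∀ i, constantCoeff (θ i) = 0 := by
    intro i
    rw [hθ]
    by_cases h : i = a
    · subst h; simp [hg0]
    · simp [Function.update_of_ne h]
  have hs : HasSubst θ := hasSubst_of_constantCoeff_zero hθ0
  have hsub : ∀ f : MvPowerSeries (Fin n) K, X a - g ∣ f - subst θ f := by
    intro f
    obtain ⟨q, hq⟩ := hHAD K (Fin n) f
    have h1 := (hq (Fin n) X θ (by simp) hθ0).1
    rw [show subst (X : Fin n → MvPowerSeries (Fin n) K) f = f from congrFun subst_self f] at h1
    rw [h1]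
    apply Finset.dvd_sum
    intro i _
    by_cases h : i = a
    · subst h
      rw [hθ, Function.update_self]
      exact dvd_mul_right _ _
    · rw [hθ, Function.update_of_ne h, sub_self, zero_mul]
      exact dvd_zero _
  have hp0 : subst θ (X a - g) = 0 := by
    rw [subst_sub hs, subst_X hs, hg, hθ, Function.update_self, sub_self]
  refine ⟨?_, ?_, ?_⟩
  · intro h
    apply hne
    have h1 : pderiv K a (X a - g) = 0 := by rw [h, map_zero]
    rw [map_sub, pderiv_X_self, sub_eq_zero] at h1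
    rw [← h1]
    simp
  · intro h
    have h1 := h.map (constantCoeff (σ := Fin n) (R := K))
    simp [hg0] at h1
  · intro x y hxy
    have h1 : subst θ x * subst θ y = 0 := by
      rw [← subst_mul hs]
      obtain ⟨z, hz⟩ := hxy
      rw [hz, subst_mul hs, hp0, zero_mul]
    rcases mul_eq_zero.mp h1 with h | h
    · left
      have := hsub x
      rwa [h, sub_zero] at this
    · right
      have := hsub y
      rwa [h, sub_zero] at this

theorem not_dvd_of_lin {K : Type} [Field K] {n : ℕ} {p q : MvPowerSeries (Fin n) K} (i j : Fin n)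
    (hp : constantCoeff p = 0)
    (h : constantCoeff (pderiv K i p) * constantCoeff (pderiv K j q) ≠
      constantCoeff (pderiv K j p) * constantCoeff (pderiv K i q)) : ¬ p ∣ q := by
  rintro ⟨z, rfl⟩
  apply h
  rw [Derivation.leibniz, Derivation.leibniz]
  simp only [smul_eq_mul, map_add, map_mul, hp, zero_mul, zero_add]
  ring

theorem isRadical_mul {R : Type} [CommRing R] {p q : R} (hq : IsRadical q)
    (hp : Prime p) (h : ¬ p ∣ q) : IsRadical (q * p) := by
  intro n x hx
  have h1 : q ∣ x := hq n x (dvd_trans (dvd_mul_right _ _) hx)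
  have h2 : p ∣ x := hp.dvd_of_dvd_pow (dvd_trans (dvd_mul_left _ _) hx)
  obtain ⟨z, rfl⟩ := h1
  rcases hp.dvd_or_dvd h2 with h3 | h3
  · exact absurd h3 h
  · exact mul_dvd_mul_left _ h3

theorem not_dvd_mul {R : Type} [CommRing R] {p a b : R} (hp : Prime p) (ha : ¬ p ∣ a)
    (hb : ¬ p ∣ b) : ¬ p ∣ a * b := fun h => (hp.dvd_or_dvd h).elim ha hb

theorem rad (hHAD : HADStmt) : RADStmt := by
  intro K _ _
  classical
  have hsX : ∀ (a : Fin 6) (g : MvPowerSeries (Fin 6) K), constantCoeff g = 0 →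
      HasSubst (Function.update X a g : Fin 6 → MvPowerSeries (Fin 6) K) := by
    intro a g hg
    apply hasSubst_of_constantCoeff_zero
    intro i
    by_cases h : i = a
    · subst h; simp [hg]
    · simp [Function.update_of_ne h]
  have hX : ∀ a : Fin 6, Prime (X a : MvPowerSeries (Fin 6) K) := by
    intro a
    have := prime_graph hHAD a (0 : MvPowerSeries (Fin 6) K) (by simp)
      (by
        have hs := hsX a 0 (by simp)
        rw [← substAlgHom_apply (R := K) hs, map_zero]) (by simp)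
    simpa using this
  set A : MvPowerSeries (Fin 6) K := X 0 - X 2 ^ 3 with hA
  set B : MvPowerSeries (Fin 6) K := X 0 + X 2 ^ 2 * X 3 with hB
  set D : MvPowerSeries (Fin 6) K := X 2 + X 3 - X 1 ^ 2 * X 4 with hD
  have h02 : (0 : Fin 6) ≠ 2 := by decide
  have h03 : (0 : Fin 6) ≠ 3 := by decide
  have hAp : Prime A := by
    refine prime_graph hHAD 0 (X 2 ^ 3) (by simp) ?_ ?_
    · have hs := hsX 0 (X 2 ^ 3) (by simp)
      rw [subst_pow hs, subst_X hs, Function.update_of_ne (by decide)]
    · rw [pderiv_pow]; simp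
  have hBp : Prime B := by
    have := prime_graph hHAD 0 (-(X 2 ^ 2 * X 3) : MvPowerSeries (Fin 6) K) (by simp) ?_ ?_
    · simpa [hB] using this
    · have hs := hsX 0 (-(X 2 ^ 2 * X 3)) (by simp)
      rw [← substAlgHom_apply (R := K) hs, map_neg, map_mul, map_pow]
      simp only [substAlgHom_apply, subst_X hs]
      rw [Function.update_of_ne (by decide), Function.update_of_ne (by decide)]
    · simp [Derivation.leibniz, pderiv_X]
  have hDp : Prime D := by
    have := prime_graph hHAD 2 (-X 3 + X 1 ^ 2 * X 4 : MvPowerSeries (Fin 6) K) (by simp) ?_ ?_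
    · have h : (X 2 - (-X 3 + X 1 ^ 2 * X 4) : MvPowerSeries (Fin 6) K) = D := by rw [hD]; ring
      rwa [h] at this
    · have hs := hsX 2 (-X 3 + X 1 ^ 2 * X 4) (by simp)
      rw [← substAlgHom_apply (R := K) hs, map_add, map_neg, map_mul, map_pow]
      simp only [substAlgHom_apply, subst_X hs]
      rw [Function.update_of_ne (by decide), Function.update_of_ne (by decide),
        Function.update_of_ne (by decide)]
    · simp [Derivation.leibniz, pderiv_X]
  have hX23 : (X 2 + X 3 : MvPowerSeries (Fin 6) K) ≠ 0 := by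
    intro h
    have h1 := congrArg (fun f => constantCoeff (pderiv K 2 f)) h
    simp [pderiv_X] at h1
  -- the three hypersurfaces tangent to `X 0`
  have hA0 : ¬ A ∣ X 0 := by
    rintro ⟨z, hz⟩
    have hs := hsX 0 (X 2 ^ 3) (by simp)
    have h1 := congrArg (subst (Function.update X 0 (X 2 ^ 3) :
      Fin 6 → MvPowerSeries (Fin 6) K)) hz
    rw [subst_mul hs, hA, subst_sub hs, subst_pow hs, subst_X hs, subst_X hs,
      Function.update_self, Function.update_of_ne (by decide), sub_self, zero_mul] at h1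
    exact pow_ne_zero 3 (hX 2).ne_zero h1
  have hsB := hsX 0 (-(X 2 ^ 2 * X 3)) (by simp)
  have hBB : subst (Function.update X 0 (-(X 2 ^ 2 * X 3)) :
      Fin 6 → MvPowerSeries (Fin 6) K) B = 0 := by
    rw [hB, subst_add hsB, subst_mul hsB, subst_pow hsB, subst_X hsB, subst_X hsB, subst_X hsB,
      Function.update_self, Function.update_of_ne (by decide), Function.update_of_ne (by decide)]
    ring
  have hB0 : ¬ B ∣ X 0 := by
    rintro ⟨z, hz⟩
    have h1 := congrArg (subst (Function.update X 0 (-(X 2 ^ 2 * X 3)) :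
      Fin 6 → MvPowerSeries (Fin 6) K)) hz
    rw [subst_mul hsB, hBB, subst_X hsB, Function.update_self, zero_mul, neg_eq_zero] at h1
    exact mul_ne_zero (pow_ne_zero 2 (hX 2).ne_zero) (hX 3).ne_zero h1
  have hBA : ¬ B ∣ A := by
    rintro ⟨z, hz⟩
    have h1 := congrArg (subst (Function.update X 0 (-(X 2 ^ 2 * X 3)) :
      Fin 6 → MvPowerSeries (Fin 6) K)) hz
    rw [subst_mul hsB, hBB, zero_mul, hA, subst_sub hsB, subst_pow hsB, subst_X hsB, subst_X hsB,
      Function.update_self, Function.update_of_ne (by decide)] at h1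
    have h2 : (X 2 ^ 2 * (X 2 + X 3) : MvPowerSeries (Fin 6) K) = 0 := by
      have : (X 2 ^ 2 * (X 2 + X 3) : MvPowerSeries (Fin 6) K) =
        -(-(X 2 ^ 2 * X 3) - X 2 ^ 3) := by ring
      rw [this, h1, neg_zero]
    exact mul_ne_zero (pow_ne_zero 2 (hX 2).ne_zero) hX23 h2
  have hlinX : ∀ i j : Fin 6, i ≠ j → ¬ (X i : MvPowerSeries (Fin 6) K) ∣ X j := by
    intro i j hij
    apply not_dvd_of_lin i j (by simp)
    simp [pderiv_X, hij, hij.symm]
  have hlinA : ∀ i : Fin 6, i ≠ 0 → ¬ (X i : MvPowerSeries (Fin 6) K) ∣ A := by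
    intro i hi
    apply not_dvd_of_lin i 0 (by simp)
    simp [hA, pderiv_X, hi, hi.symm, pderiv_pow]
  have hlinB : ∀ i : Fin 6, i ≠ 0 → ¬ (X i : MvPowerSeries (Fin 6) K) ∣ B := by
    intro i hi
    apply not_dvd_of_lin i 0 (by simp)
    simp [hB, pderiv_X, hi, hi.symm, pderiv_pow, Derivation.leibniz]
  have hD0 : ∀ q : MvPowerSeries (Fin 6) K, constantCoeff (pderiv K 2 q) = 0 →
      (∃ j : Fin 6, (j = 0 ∨ j = 1) ∧ constantCoeff (pderiv K j q) ≠ 0) → ¬ D ∣ q := by
    rintro q hq ⟨j, hj, hjq⟩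
    apply not_dvd_of_lin 2 j (by simp [hD])
    rw [hq, mul_zero]
    have : constantCoeff (pderiv K 2 D) = 1 := by
      simp [hD, pderiv_X, pderiv_pow, Derivation.leibniz]
    rw [this, one_mul]
    exact hjq
  rw [← isRadical_iff_span_singleton]
  have e : fV K = X 0 * A * B * X 1 * X 2 * X 3 * D := rfl
  rw [e]
  have r0 : IsRadical (X 0 : MvPowerSeries (Fin 6) K) := (hX 0).isRadical
  have r1 := isRadical_mul r0 hAp hA0
  have r2 := isRadical_mul r1 hBp (not_dvd_mul hBp hB0 hBA)
  have n1 : ∀ i : Fin 6, i ≠ 0 → ¬ (X i : MvPowerSeries (Fin 6) K) ∣ X 0 * A * B := fun i hi =>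
    not_dvd_mul (hX i) (not_dvd_mul (hX i) (hlinX i 0 hi) (hlinA i hi)) (hlinB i hi)
  have r3 := isRadical_mul r2 (hX 1) (n1 1 (by decide))
  have r4 := isRadical_mul r3 (hX 2) (not_dvd_mul (hX 2) (n1 2 (by decide))
    (hlinX 2 1 (by decide)))
  have r5 := isRadical_mul r4 (hX 3) (not_dvd_mul (hX 3) (not_dvd_mul (hX 3) (n1 3 (by decide))
    (hlinX 3 1 (by decide))) (hlinX 3 2 (by decide)))
  refine isRadical_mul r5 hDp ?_
  refine not_dvd_mul hDp (not_dvd_mul hDp (not_dvd_mul hDp (not_dvd_mul hDp (not_dvd_mul hDp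
    ?_ ?_) ?_) ?_) ?_) ?_
  · apply hD0
    · simp [pderiv_X]
    · exact ⟨0, Or.inl rfl, by simp [pderiv_X]⟩
  · apply hD0
    · simp [hA, pderiv_X, pderiv_pow]
    · exact ⟨0, Or.inl rfl, by simp [hA, pderiv_X, pderiv_pow]⟩
  · apply hD0
    · simp [hB, pderiv_X, pderiv_pow, Derivation.leibniz]
    · exact ⟨0, Or.inl rfl, by simp [hB, pderiv_X, pderiv_pow, Derivation.leibniz]⟩
  · apply hD0
    · simp [pderiv_X]
    · exact ⟨1, Or.inr rfl, by simp [pderiv_X]⟩
  · apply not_dvd_of_lin 2 3 (by simp [hD])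
    simp [hD, pderiv_X, pderiv_pow, Derivation.leibniz]
  · apply not_dvd_of_lin 2 3 (by simp [hD])
    simp [hD, pderiv_X, pderiv_pow, Derivation.leibniz]

end Pool.Agent.ZAR.H23
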