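import Pool.Agent.ZAR.Stmts

namespace Pool.Agent.ZAR.H23

open MvPowerSeries

/-- The line `M` is contained in the singular locus of `V`. -/
theorem sing_le (K : Type) [Field K] :
    singI (Ideal.span {fV K}) ≤ Ideal.span {X 0, X 1, X 2, X 3, X 4} := by
  have h0 : (X 0 : MvPowerSeries (Fin 6) K) ∈
      (Ideal.span {X 0, X 1, X 2, X 3, X 4} : Ideal (MvPowerSeries (Fin 6) K)) :=
    Ideal.subset_span (by simp)
  have h1 : (X 1 : MvPowerSeries (Fin 6) K) ∈
      (Ideal.span {X 0, X 1, X 2, X 3, X 4} : Ideal (MvPowerSeries (Fin 6) K)) :=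
    Ideal.subset_span (by simp)
  set P : Ideal (MvPowerSeries (Fin 6) K) := Ideal.span {X 0, X 1, X 2, X 3, X 4} with hP
  have hf : fV K = X 0 * (X 1 * ((X 0 - X 2 ^ 3) * (X 0 + X 2 ^ 2 * X 3) * X 2 * X 3 *
      (X 2 + X 3 - X 1 ^ 2 * X 4))) := by
    unfold fV
    ring
  rw [singI, Ideal.span_le]
  rintro g (hg | ⟨f, hf', i, rfl⟩)
  · obtain ⟨c, rfl⟩ := Ideal.mem_span_singleton.mp hg
    rw [hf, mul_assoc]
    exact P.mul_mem_right _ h0
  · obtain ⟨c, rfl⟩ := Ideal.mem_span_singleton.mp hf'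
    rw [hf, mul_assoc, Derivation.leibniz]
    apply P.add_mem
    · exact P.mul_mem_right _ h0
    · rw [smul_eq_mul, mul_assoc]
      exact P.mul_mem_right _ (P.mul_mem_right _ h1)

end Pool.Agent.ZAR.H23
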