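import Pool.Agent.Helper29_ZAR.Tools
import Pool.Agent.Helper39_ZAR.NEW
import Pool.Agent.Helper39_ZAR.IMP
import Pool.Agent.Helper60_ZAR.Gen
import Pool.Agent.Helper60_ZAR.Lev
import Pool.Agent.Helper60_ZAR.Misc
import Pool.Agent.Helper32_ZAR.Gvk
import Pool.Agent.Helper10_ZAR.RDS
import Pool.Agent.Helper10_ZAR.LV2
import Pool.Agent.Helper10_ZAR.STV
import Pool.Agent.Helper3_ZAR.STC
import Pool.Agent.Helper3_ZAR.GPU
import Pool.Agent.Helper86_ZAR.KER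
import Pool.Agent.Helper90_ZAR.DIC
import Pool.Agent.Helper82_ZAR.WEI
import Pool.Agent.Helper25_ZAR.NZC
import Pool.Agent.Helper69_ZAR.EQB
import Pool.Agent.Helper69_ZAR.BCO
import Pool.Agent.Helper69_ZAR.PFS
import Pool.Agent.Helper69_ZAR.TVD
import Pool.Agent.Helper65_ZAR.TPU
import Pool.Agent.Helper92_ZAR.TCC
import Pool.Agent.Helper94_ZAR.TVA
import Pool.Agent.Helper94_ZAR.TVB
import Pool.Agent.Helper88_ZAR.Rk
import Pool.Agent.Helper88_ZAR.Lv5
import Pool.Agent.Helper2_ZAR.TGC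
import Pool.Agent.Helper81_ZAR.SV6
import Pool.Agent.Helper41_ZAR.H5
import Pool.Agent.Helper23_ZAR.GPS
import Pool.Agent.Helper23_ZAR.NZA
import Pool.Agent.Helper23_ZAR.CYL
import Pool.Agent.Helper23_ZAR.GID
import Pool.Agent.Helper23_ZAR.CRS
import Pool.Agent.Helper23_ZAR.Cng
import Pool.Agent.Helper23_ZAR.RAD
import Pool.Agent.Helper23_ZAR.FIN
import Pool.Agent.Helper23_ZAR.SNG

namespace Pool.Agent.ZAR.H23

theorem asm (hTRA : TRAStmt) (hEXA : EXAStmt) (hEXB : EXBStmt) : FINStmt := by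
  have hCHA : CHAStmt := H29.cha
  have hHAD : HADStmt := H29.had
  have hNEW : NEWStmt := H39.newton
  have hGUU : GUUStmt := H60.guu
  have hGPS : GPSStmt := gps
  have hGDT : GDTStmt := H60.gdt hGPS
  have hGDF : GDFStmt := H32.gdf
  have hGVK : GVKStmt := H32.gvk
  have hGIN : GINStmt := H60.gin
  have hRDS : RDSStmt := H10.rds
  have hSTC : STCStmt := H3.stc hCHA hRDS
  have hKER : KERStmt := H86.ker hHAD
  have hIMP : IMPStmt := H39.imp hKER
  have hDIC : DICStmt := H90.dic hCHA hKER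
  have hBAS : BASStmt := H90.bas hCHA hKER
  have hNZA : NZAStmt := nza
  have hWEI : WEIStmt := H82.wei
  have hNZC : NZCStmt := H25.nzc hNZA hWEI hGVK
  have hCYL : CYLStmt := cyl hHAD hSTC hDIC hBAS hNZC hIMP hGUU
  have hEQB : EQBStmt := H69.eqb
  have hBCO : BCOStmt := H69.bco hTRA
  have hTPU : TPUStmt := H65.tpu hTRA
  have hPFS : PFSStmt := H69.pfs
  have hTVD : TVDStmt := H69.tvd
  have hGPU : GPUStmt := H3.gpu hCHA hGDT hPFS hTVD
  have hTGP : TGPStmt := H60.tgp hCHA hGIN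
  have hLV2 : LV2Stmt := H10.lv2 hCHA
  have hLV3 : LV3Stmt := H60.lv3 hBCO hTPU hTGP hLV2 hGUU
  have hLV4 : LV4Stmt := H60.lv4 hBCO hTPU hGPU hPFS hTGP hLV3 hGUU
  have hGID : GIDStmt := gid
  have hCRS : CRSStmt := crs hHAD
  have hCON : CONStmt := con hCRS
  have hTCC : TCCStmt := H92.tcc hNEW hHAD
  have hTVA : TVAStmt := H94.tva hGVK hCHA hHAD hGDF hTVD hGID
  have hTVB : TVBStmt := H94.tvb hGVK hCHA hHAD hGDF hTVD hGID
  have hTVL : TVLStmt := H60.tvl hGPU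
  have hRKC : RKCStmt := H88.rkc hCHA hGDF
  have hRKM : RKMStmt := H88.rkm hCHA hGDF hPFS
  have hTGC : TGCStmt := H02.tgc hCHA hGDF
  have hLV5 : LV5Stmt := H88.lv5 hCHA hGUU hBCO hTPU hEXA hEXB hCON hTCC hTVA hTVB hTVL hRKC hRKM
    hTGC hLV4
  have hSV6 : SV6Stmt := H81.sv6
  have hH5A : H5AStmt := H41.h5a hGVK hTVD
  have hH5B : H5BStmt := H41.h5b hGVK hTVD
  have hH5C : H5CStmt := H41.h5c hGVK hTVD
  have hH5L : H5LStmt := H41.h5l hGVK hTVD
  have hH5R : H5RStmt := H41.h5r hGVK hTVD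
  have hNEG : NEGStmt := H60.neg hSV6 hTPU hH5A hH5B hH5C hH5L hH5R hLV5 hGUU hGVK
  have hRAD : RADStmt := rad hHAD
  have hPLX : PLXStmt := H60.plx hKER
  have hBBV : BBVStmt := H60.bbv
  have hSTV : STVStmt := H10.stv
  exact fin' hCYL hEQB hNEG hRAD hPLX hBBV hSTV

end Pool.Agent.ZAR.H23
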