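import Pool.Agent.ZAR.Defs

namespace Pool.Agent.ZAR.H23

open MvPowerSeries

theorem equisingular_of_equiB
    (B : (n : ℕ) → (K : Type) → [Field K] → (Fin n → MvPowerSeries (Fin n) K) → Prop)
    (s : ℕ) : ∀ (n : ℕ) (K : Type) [Field K] (I P : Ideal (MvPowerSeries (Fin n) K)),
    EquiB B s n K I P → Equisingular B s n K I P := by
  induction s with
  | zero =>
    intro n K _ I P h
    have h' : ¬ singI I ≤ P ∧ singI I = ⊤ := by
      cases n <;> exact h
    exact Equisingular.simple 0 n K I P h'.1 h'.2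
  | succ s ih =>
    intro n K _ I P h
    cases n with
    | zero =>
      have h' : ¬ singI I ≤ P ∧ singI I = ⊤ := h
      exact Equisingular.simple _ _ K I P h'.1 h'.2
    | succ n =>
      have h' : (¬ singI I ≤ P ∧ singI I = ⊤) ∨
        (singI I ≤ P ∧ ∃ x : Fin (n + 1) → MvPowerSeries (Fin (n + 1)) K, B (n + 1) K x ∧
        IsBasis I x ∧ EquiB B s n (KU n K) (critI (uu n K) x I) (imgI (uu n K) x P)) := h
      rcases h' with h' | ⟨h1, x, h2, h3, h4⟩
      · exact Equisingular.simple _ _ K I P h'.1 h'.2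
      · exact Equisingular.step s n K I P x h1 h2 h3 (ih _ _ _ _ h4)

theorem equiB_of_equisingular
    (B : (n : ℕ) → (K : Type) → [Field K] → (Fin n → MvPowerSeries (Fin n) K) → Prop)
    (s n : ℕ) (K : Type) [Field K] (I P : Ideal (MvPowerSeries (Fin n) K))
    (h : Equisingular B s n K I P) : EquiB B s n K I P := by
  induction h with
  | simple s n K I P h1 h2 =>
    cases s with
    | zero => cases n <;> exact ⟨h1, h2⟩
    | succ s =>
      cases n with
      | zero => exact ⟨h1, h2⟩
      | succ n => exact Or.inl ⟨h1, h2⟩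
  | step s n K I P x h1 h2 h3 _ ih =>
    exact Or.inr ⟨h1, x, h2, h3, ih⟩

end Pool.Agent.ZAR.H23
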