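import Pool.Agent.ZAR.Stmts

namespace Pool.Agent.ZAR.H23

open MvPowerSeries

theorem tra (hCHA : CHAStmt) : TRAStmt := by
  intro K L _ _ _ n q I Y hSV f hf
  obtain ⟨p, p', a, a', s, s', ha, ha', hT, hY⟩ := hSV
  obtain ⟨hs0, hs0', hss, hT4⟩ := hT
  have haS : HasSubst a := hasSubst_of_constantCoeff_zero ha.1
  have haS' : HasSubst a' := hasSubst_of_constantCoeff_zero ha'.1
  have hsS : HasSubst s := hasSubst_of_constantCoeff_zero hs0
  have hsS' : HasSubst s' := hasSubst_of_constantCoeff_zero hs0'
  -- extension of scalars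
  have cL : ∀ {m k : ℕ} (b : Fin m → MvPowerSeries (Fin k) K), (∀ i, constantCoeff (b i) = 0) →
      ∀ i, constantCoeff (bc K L (Fin k) (b i)) = 0 := by
    intro m k b hb i
    rw [bc, constantCoeff_map, hb, map_zero]
  have van : ∀ {k : ℕ} (b : Fin n → MvPowerSeries (Fin k) K), Van I b →
      subst (fun j => bc K L (Fin k) (b j)) f = 0 := by
    intro k b hb
    have hb1 : HasSubst (fun j => bc K L (Fin k) (b j)) :=
      hasSubst_of_constantCoeff_zero (cL b hb.1)
    have hbS : HasSubst b := hasSubst_of_constantCoeff_zero hb.1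
    have hle : extI L I ≤ RingHom.ker (substAlgHom (R := L) hb1 :
        MvPowerSeries (Fin n) L →ₐ[L] MvPowerSeries (Fin k) L).toRingHom := by
      rw [extI]
      have hdom : IsDomain (MvPowerSeries (Fin k) L) := NoZeroDivisors.to_isDomain _
      apply (RingHom.ker_isPrime _).isRadical.radical_le_iff.mpr
      rw [Ideal.map_le_iff_le_comap]
      intro g hg
      rw [Ideal.mem_comap, RingHom.mem_ker]
      show substAlgHom (R := L) hb1 (bc K L (Fin n) g) = 0
      rw [substAlgHom_apply, bc, ← map_subst hbS, hb.2 g hg, map_zero]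
    have h1 := hle hf
    rw [RingHom.mem_ker] at h1
    have h2 : substAlgHom (R := L) hb1 f = 0 := h1
    rwa [substAlgHom_apply] at h2
  have e1 := van a ha
  have e2 := van a' ha'
  have hYa : (fun j => bc K L (Fin q) (Y j)) =
      fun j => subst (fun i => bc K L (Fin q) (s i)) (bc K L (Fin p) (a j)) := by
    funext j
    rw [← hY j, bc, bc, map_subst hsS]
  have hYa' : (fun j => bc K L (Fin q) (Y j)) =
      fun j => subst (fun i => bc K L (Fin q) (s' i)) (bc K L (Fin p') (a' j)) := by
    funext j
    rw [← hY j, hss j, bc, bc, map_subst hsS']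
  have hA : HasSubst (fun j => bc K L (Fin p) (a j)) :=
    hasSubst_of_constantCoeff_zero (cL a ha.1)
  have hA' : HasSubst (fun j => bc K L (Fin p') (a' j)) :=
    hasSubst_of_constantCoeff_zero (cL a' ha'.1)
  have hS : HasSubst (fun i => bc K L (Fin q) (s i)) :=
    hasSubst_of_constantCoeff_zero (cL s hs0)
  have hS' : HasSubst (fun i => bc K L (Fin q) (s' i)) :=
    hasSubst_of_constantCoeff_zero (cL s' hs0')
  have sz : ∀ {k l : ℕ} {θ : Fin k → MvPowerSeries (Fin l) L}, HasSubst θ →
      subst θ (0 : MvPowerSeries (Fin k) L) = 0 := by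
    intro k l θ h
    rw [← substAlgHom_apply (R := L) h, map_zero]
  have ssum : ∀ {k l : ℕ} {θ : Fin k → MvPowerSeries (Fin l) L}, HasSubst θ →
      ∀ g : Fin n → MvPowerSeries (Fin k) L, subst θ (∑ i, g i) = ∑ i, subst θ (g i) := by
    intro k l θ h g
    simp only [← substAlgHom_apply (R := L) h, map_sum]
  -- commutation of derivation and extension
  have pbc : ∀ {k : ℕ} (i : Fin k) (g : MvPowerSeries (Fin k) K),
      pderiv L i (bc K L (Fin k) g) = bc K L (Fin k) (pderiv K i g) := by
    intro k i g
    ext d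
    rw [coeff_pderiv, bc, coeff_map, coeff_map, coeff_pderiv, map_mul]
    simp
  refine ⟨?_, ?_⟩
  · rw [hYa, ← subst_comp_subst_apply hA hS, e1, sz hS]
  · have key := hT4 L (fun j => subst (fun j => bc K L (Fin q) (Y j)) (pderiv L j f)) ?_ ?_
    · intro i
      exact congrFun key i
    · intro i
      have h1 := hCHA L n p (fun j => bc K L (Fin p) (a j)) (cL a ha.1) f i
      rw [e1, map_zero] at h1
      have h2 := congrArg (subst (fun i => bc K L (Fin q) (s i))) h1
      rw [sz hS, ssum hS] at h2
      rw [h2]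
      apply Finset.sum_congr rfl
      intro j _
      rw [subst_mul hS, subst_comp_subst_apply hA hS, ← hYa, pbc, bc, bc, ← map_subst hsS]
    · intro i
      have h1 := hCHA L n p' (fun j => bc K L (Fin p') (a' j)) (cL a' ha'.1) f i
      rw [e2, map_zero] at h1
      have h2 := congrArg (subst (fun i => bc K L (Fin q) (s' i))) h1
      rw [sz hS', ssum hS'] at h2
      rw [h2]
      apply Finset.sum_congr rfl
      intro j _
      rw [subst_mul hS', subst_comp_subst_apply hA' hS', ← hYa', pbc, bc, bc, ← map_subst hsS']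

end Pool.Agent.ZAR.H23
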