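import Pool.Agent.Helper23_ZAR.Asm
import Pool.Agent.Helper23_ZAR.TRA
import Pool.Agent.Helper23_ZAR.Ind
import Pool.Agent.Helper61_ZAR.EXA
import Pool.Agent.Helper61_ZAR.EXB

namespace Pool.Agent.ZAR.H23

open MvPowerSeries

theorem main
    (B : (n : ℕ) → (K : Type) → [Field K] → (Fin n → MvPowerSeries (Fin n) K) → Prop)
    (hB : ∀ (n : ℕ) (K : Type) [Field K], B n K X) (k : Type) [Field k] [CharZero k] :
    (Ideal.span {fV k}).IsRadical ∧
    (Ideal.span {X 0, X 1, X 2, X 3, X 4} : Ideal (MvPowerSeries (Fin 6) k)).IsPrime ∧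
    (Ideal.span {fV k}) ≤ Ideal.span {X 0, X 1, X 2, X 3, X 4} ∧
    singI (Ideal.span {fV k}) ≤ Ideal.span {X 0, X 1, X 2, X 3, X 4} ∧
    IsBasis (Ideal.span {fV k}) (bV k) ∧
    Equisingular B 4 6 k (Ideal.span {fV k}) (Ideal.span {X 0, X 1, X 2, X 3, X 4}) ∧
    ¬ Equisingular B 3 5 (KU 5 k) (critI (uu 5 k) (bV k) (Ideal.span {fV k}))
      (imgI (uu 5 k) (bV k) (Ideal.span {X 0, X 1, X 2, X 3, X 4})) := by
  have h := asm (tra H29.cha) (H61.exa H39.newton H29.had gid H32.gvk)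
    (H61.exb H39.newton H29.had gid H32.gvk) B hB k
  exact ⟨h.1, h.2.1, h.2.2.1, sing_le k, h.2.2.2.1,
    equisingular_of_equiB B 4 6 k _ _ h.2.2.2.2.1,
    fun h1 => h.2.2.2.2.2 (equiB_of_equisingular B 3 5 _ _ _ h1)⟩

end Pool.Agent.ZAR.H23
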